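import Pool.Agent.W5h40.NH.Pluri

/-!
# An open set of torus diffeomorphisms with tangencies none of which is pluripotent

`V = ℝ²`; `Lat b` is the lattice spanned by the basis `b`; `TorusDiffeo b r` is the set of the `C^r`
diffeomorphisms of the flat torus `V / Lat b`, given by lifts to the plane; `IsNewhouseDomain N`:
`N` is nonempty, open for the `C^r` topology, and every element of `N` has a hyperbolic set with a
homoclinic tangency (`Pool/Agent/W5h40/NH/Defs.lean`).

Idea. The model map is a surgery of a linear hyperbolic map of the torus in a small box. Outside of
the box the maps near the model are uniformly hyperbolic, with an attractor. In the box there is a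
saddle whose unstable manifold is folded by the dynamics and then crosses the region which is
foliated by the stable manifolds of the attractor; this gives a tangency for all maps near the model.
Every hyperbolic set with a tangency of such a map contains a point whose orbit stays in the box,
where the area is expanded by a factor of at least two. If the map were pluripotent for this
set, a set of positive area would be expanded at the same rate, which is impossible on a torus.
-/

open Set Filter Topology

namespace Pool.Agent.Results.MP_f9d495_an.ExpandingNewhouseDomain

open Pool.Agent.W5h40.NH

/-- For every `r ≥ 1` there are a flat torus and a Newhouse domain `N` of its `C^r` diffeomorphisms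
(a nonempty `C^r` open set each of whose elements has a hyperbolic set with a homoclinic tangency)
such that no `f ∈ N` is pluripotent, or strongly pluripotent, for any hyperbolic set of `f` which has
a homoclinic tangency. -/
theorem result (r : ℕ) (hr : 1 ≤ r) :
    ∃ (b : Module.Basis (Fin 2) ℝ V) (N : Set (TorusDiffeo b r)), IsNewhouseDomain N ∧
      ∀ f ∈ N, ∀ Λ : Set V, IsHyperbolicSet f Λ → HasTangency f Λ →
        ¬ StronglyPluripotent f Λ ∧ ¬ Pluripotent f Λ := by
  refine ⟨b0, ND r, ND_newhouse hr, fun f hf Λ hΛ hT => ?_⟩
  have h := ND_not_pluripotent hr hf hΛ hT
  exact ⟨fun h1 => h h1.pluripotent, h⟩

end Pool.Agent.Results.MP_f9d495_an.ExpandingNewhouseDomain
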